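import Mathlib

set_option autoImplicit false
set_option maxHeartbeats 400000

namespace Pool.Agent.H.MP_377342_al

open Quaternion MulOpposite

theorem eig0 {W : Type} [AddCommGroup W] [Module ℍᵐᵒᵖ W] [Module ℝ W] [IsScalarTower ℝ ℍᵐᵒᵖ W]
    [Module.Finite ℝ W] [Nontrivial W] (f : W →ₗ[ℍᵐᵒᵖ] W) :
    ∃ (w : W) (c : ℍᵐᵒᵖ), w ≠ 0 ∧ f w = c • w := by
  let ι : ℂ →ₐ[ℝ] ℍᵐᵒᵖ := Quaternion.ofComplex.toOpposite fun x y => (Commute.all x y).map _
  let _ : Module ℂ W := Module.compHom W ι.toRingHom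
  have : IsScalarTower ℝ ℂ W := ⟨fun r z w => by
    change ι (r • z) • w = r • ι z • w
    rw [map_smul, smul_assoc]⟩
  have : Module.Finite ℂ W := Module.Finite.of_restrictScalars_finite ℝ ℂ W
  let g : Module.End ℂ W := ⟨f.toAddHom, fun z w => f.map_smul (ι z) w⟩
  obtain ⟨c, hc⟩ := g.exists_eigenvalue
  obtain ⟨w, hw⟩ := hc.exists_hasEigenvector
  exact ⟨w, ι c, hw.2, hw.apply_eq_smul⟩

variable {n : ℕ}

instance : Module.Finite ℍᵐᵒᵖ (Fin n → ℍ) := Module.Finite.of_restrictScalars_finite ℝ _ _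

theorem eig (A : (Fin n → ℍ) →ₗ[ℍᵐᵒᵖ] (Fin n → ℍ)) (L M : Submodule ℍᵐᵒᵖ (Fin n → ℍ))
    (hL : ∀ x ∈ L, A x ∈ L) (hM : ∀ x ∈ M, A x ∈ M) (v : Fin n → ℍ) (hv : v ∈ M) (hv' : v ∉ L) :
    ∃ x ∈ M, x ∉ L ∧ ∃ c : ℍᵐᵒᵖ, A x - c • x ∈ L := by
  have : Nontrivial (M ⧸ L.comap M.subtype) := Submodule.Quotient.nontrivial_iff.2 fun h =>
    hv' (show (⟨v, hv⟩ : M) ∈ L.comap M.subtype from h ▸ trivial)
  have : Module.Finite ℝ M := Module.Finite.trans ℍᵐᵒᵖ M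
  have : Module.Finite ℝ (M ⧸ L.comap M.subtype) := Module.Finite.trans ℍᵐᵒᵖ _
  obtain ⟨w, c, hw, e⟩ := eig0 ((L.comap M.subtype).mapQ (L.comap M.subtype) (A.restrict hM)
    fun x hx => hL _ hx)
  obtain ⟨x, rfl⟩ := Submodule.Quotient.mk_surjective _ w
  refine ⟨x, x.2, fun h => hw ((Submodule.Quotient.mk_eq_zero _).2 h), c, ?_⟩
  rw [Submodule.mapQ_apply, ← Submodule.Quotient.mk_smul, Submodule.Quotient.eq] at e
  exact e

variable (B : LinearMap.BilinForm ℝ (Fin n → ℍ)) (hs : ∀ x y, B x y = B y x)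
  (hl : ∀ (c : ℍ) x y, B (op c • x) y = B x (op (star c) • y))

def perp (L : Submodule ℍᵐᵒᵖ (Fin n → ℍ)) : Submodule ℍᵐᵒᵖ (Fin n → ℍ) where
  carrier := {y | ∀ x ∈ L, B x y = 0}
  add_mem' h k x hx := by rw [map_add, h x hx, k x hx, add_zero]
  zero_mem' x _ := map_zero _
  smul_mem' c y h x hx := by
    have := hl (star c.unop) x y
    rw [star_star, op_unop] at this
    exact this ▸ h _ (L.smul_mem _ hx)

include hs hl in
theorem line (x : Fin n → ℍ) (c d : ℍ) : B (op c • x) (op d • x) = (c * star d).re * B x x := by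
  have h : ∀ e : ℍ, B (op e • x) x = e.re * B x x := fun e => by
    have h1 : B (op e • x) x = B (op (star e) • x) x := by rw [hl, hs]
    have h2 : op e • x + op (star e) • x = (2 * e.re) • x := by
      rw [← add_smul, ← op_add, Quaternion.self_add_star']
      ext1 i
      simp [Quaternion.mul_coe_eq_smul, two_mul, add_smul]
    have h3 := congrArg (fun y => B y x) h2
    simp only [map_add, LinearMap.add_apply, map_smul, LinearMap.smul_apply, smul_eq_mul] at h3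
    linarith
  rw [← star_star d, ← hl, smul_smul, ← op_mul, h, star_star]

include hs hl in
theorem key (A : (Fin n → ℍ) →ₗ[ℍᵐᵒᵖ] (Fin n → ℍ)) (hA : ∀ x y, B (A x) y = -B x (A y))
    (L : Submodule ℍᵐᵒᵖ (Fin n → ℍ)) (hL : ∀ x ∈ L, A x ∈ L) (k : ℕ) :
    ∀ M : Submodule ℍᵐᵒᵖ (Fin n → ℍ), Module.finrank ℍᵐᵒᵖ M = k → (∀ x ∈ M, A x ∈ M) → L ≤ M →
      (∀ x ∈ L, ∀ y ∈ M, B x y = 0) → ∀ v ∈ M, v ∉ L → 0 ≤ B v v →
      ∃ x ∈ M, x ∉ L ∧ (∃ c : ℍᵐᵒᵖ, A x - c • x ∈ L) ∧ 0 ≤ B x x := by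
  induction k using Nat.strong_induction_on with
  | _ k ih =>
  intro M hk hM hLM ho v hv hv' hv0
  obtain ⟨x, hx, hx', e, he⟩ := eig A L M hL hM v hv hv'
  by_cases h0 : 0 ≤ B x x
  · exact ⟨x, hx, hx', ⟨e, he⟩, h0⟩
  replace h0 := not_le.1 h0
  have mem : ∀ y, y ∈ perp B hl (ℍᵐᵒᵖ ∙ x) ↔ ∀ c : ℍᵐᵒᵖ, B (c • x) y = 0 := fun y =>
    ⟨fun h c => h _ (Submodule.mem_span_singleton.2 ⟨c, rfl⟩), fun h z hz => by
      obtain ⟨c, rfl⟩ := Submodule.mem_span_singleton.1 hz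
      exact h c⟩
  let φ : ℍ →ₗ[ℝ] ℝ :=
    { toFun := fun c => (B x x)⁻¹ * B (op c • x) v
      map_add' := fun a b => by simp [add_smul, mul_add]
      map_smul' := fun r a => by simp [smul_assoc, mul_left_comm] }
  obtain ⟨d, hd⟩ := (InnerProductSpace.toDual ℝ ℍ).surjective (LinearMap.toContinuousLinearMap φ)
  have h1 : v - op d • x ∈ perp B hl (ℍᵐᵒᵖ ∙ x) := (mem _).2 fun c => by
    have h2 : inner ℝ d c.unop = (B x x)⁻¹ * B (c • x) v := DFunLike.congr_fun hd c.unop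
    rw [real_inner_comm, Quaternion.inner_def] at h2
    rw [map_sub, ← op_unop c, line B hs hl, h2, op_unop]
    field_simp [h0.ne]
    ring
  have h2 := (mem _).1 h1 (op d)
  have h3 := line B hs hl x d d
  rw [Quaternion.self_mul_star, Quaternion.re_coe] at h3
  have h4 : B v v = B (v - op d • x) (v - op d • x) + normSq d * B x x := by
    simp only [map_sub, LinearMap.sub_apply, hs v (op d • x)] at h2 ⊢
    linarith
  have h5 := mul_nonpos_of_nonneg_of_nonpos (normSq_nonneg (a := d)) h0.le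
  have h6 : v - op d • x ∈ M := sub_mem hv (M.smul_mem _ hx)
  obtain ⟨y, hy, hy'⟩ := ih _ (hk ▸ Submodule.finrank_lt_finrank_of_lt (lt_of_le_of_ne inf_le_left
      fun h => h0.ne (by simpa using (mem x).1 (h.ge hx).2 1)))
    (M ⊓ perp B hl (ℍᵐᵒᵖ ∙ x)) rfl
    (fun y hy => ⟨hM y hy.1, (mem _).2 fun c => by
      have e1 := ho _ (L.smul_mem c he) y hy.1
      have e2 := (mem y).1 hy.2 (c * e)
      have e3 := hA (c • x) y
      rw [smul_sub, smul_smul, map_sub, LinearMap.sub_apply, e2, ← map_smul A] at e1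
      linarith⟩)
    (fun y hy => ⟨hLM hy, (mem _).2 fun c => by rw [hs, ho y hy _ (M.smul_mem _ hx)]⟩)
    (fun y hy z hz => ho y hy z hz.1) _ ⟨h6, h1⟩
    (fun h => by
      rw [ho _ h _ h6, zero_add] at h4
      have : d = 0 := normSq_le_zero.1 (by nlinarith)
      exact hv' (by simpa [this] using h))
    (by linarith)
  exact ⟨y, hy.1, hy'⟩

include hs hl in
theorem main (A : (Fin n → ℍ) →ₗ[ℍᵐᵒᵖ] (Fin n → ℍ)) (hA : ∀ x y, B (A x) y = -B x (A y))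
    (N : Submodule ℍᵐᵒᵖ (Fin n → ℍ)) (hN : ∀ x ∈ N, A x ∈ N ∧ 0 ≤ B x x) :
    ∃ L : Submodule ℍᵐᵒᵖ (Fin n → ℍ), N ≤ L ∧ (∀ x ∈ L, A x ∈ L) ∧
      Maximal (fun M : Submodule ℍᵐᵒᵖ (Fin n → ℍ) => ∀ x ∈ M, 0 ≤ B x x) L := by
  obtain ⟨L, ⟨h1, h2⟩, h3⟩ := set_has_maximal_iff_noetherian.2 inferInstance
    {L : Submodule ℍᵐᵒᵖ (Fin n → ℍ) | N ≤ L ∧ ∀ x ∈ L, A x ∈ L ∧ 0 ≤ B x x} ⟨N, le_rfl, hN⟩
  refine ⟨L, h1, fun x hx => (h2 x hx).1, fun x hx => (h2 x hx).2, fun L' hL' hle v hv => ?_⟩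
  by_contra hv'
  obtain ⟨l, hl'⟩ : (B v).domRestrict (L.restrictScalars ℝ) ∈
      LinearMap.range (LinearMap.flip (B.restrict (L.restrictScalars ℝ))) := by
    rw [← LinearMap.dualAnnihilator_ker_eq_range_flip, Submodule.mem_dualAnnihilator]
    intro x hx
    have e0 : B x x = 0 := LinearMap.congr_fun hx x
    change B v x = 0
    by_contra e
    obtain ⟨t, ht⟩ : ∃ t, t * B v x = -(B v v + 1) / 2 := ⟨_, div_mul_cancel₀ _ e⟩
    have := hL' _ (add_mem hv ((L'.restrictScalars ℝ).smul_mem t (hle x.2)))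
    simp only [map_add, map_smul, LinearMap.add_apply, LinearMap.smul_apply, smul_eq_mul, e0,
      hs x v, add_zero, mul_zero, ht] at this
    linarith
  have h4 : v - l ∈ perp B hl L := fun x hx => by
    have e : B x l = B v x := LinearMap.congr_fun hl' ⟨x, hx⟩
    rw [map_sub, e, hs, sub_self]
  have hp : ∀ y ∈ perp B hl L, A y ∈ perp B hl L := fun y hy x hx => by
    have := hA x y
    rw [hy _ (h2 x hx).1] at this
    linarith
  obtain ⟨x, hx, hx', ⟨c, hc⟩, h0⟩ := key B hs hl A hA (L ⊓ perp B hl L)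
    (fun y hy => ⟨(h2 y hy.1).1, hp y hy.2⟩) _ (perp B hl L) rfl hp inf_le_right
    (fun x hx y hy => hy x hx.1) _ h4 (fun h => hv' (by simpa using add_mem h.1 l.2))
    (hL' _ (sub_mem hv (hle l.2)))
  refine h3 (L ⊔ ℍᵐᵒᵖ ∙ x) ⟨h1.trans le_sup_left, fun y hy => ?_⟩ (lt_of_le_of_ne le_sup_left
    fun h => hx' ⟨h.ge (Submodule.mem_sup_right (Submodule.mem_span_singleton_self x)), hx⟩)
  obtain ⟨y, hy', z, hz, rfl⟩ := Submodule.mem_sup.1 hy
  replace hy := hy'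
  obtain ⟨d, rfl⟩ := Submodule.mem_span_singleton.1 hz
  constructor
  · rw [map_add, map_smul, ← sub_add_cancel (A x) (c • x), smul_add, ← add_assoc]
    exact Submodule.add_mem_sup (add_mem (h2 y hy).1 (L.smul_mem _ hc.1))
      (Submodule.smul_mem _ _ (Submodule.smul_mem _ _ (Submodule.mem_span_singleton_self x)))
  · have e1 : B y (d • x) = 0 := (perp B hl L).smul_mem d hx y hy
    have e2 := line B hs hl x d.unop d.unop
    rw [Quaternion.self_mul_star, Quaternion.re_coe, op_unop] at e2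
    simp only [map_add, LinearMap.add_apply, hs (d • x) y, e1, e2]
    nlinarith [(h2 y hy).2, mul_nonneg (normSq_nonneg (a := d.unop)) h0]

open Matrix in
theorem mat (G A : Matrix (Fin n) (Fin n) ℍ) (hG : Gᴴ = G) (hA : G * A = -(Aᴴ * G))
    (N : Submodule ℍᵐᵒᵖ (Fin n → ℍ)) (hN : ∀ x ∈ N, A *ᵥ x ∈ N ∧ 0 ≤ (star x ⬝ᵥ G *ᵥ x).re) :
    ∃ L : Submodule ℍᵐᵒᵖ (Fin n → ℍ), N ≤ L ∧ (∀ x ∈ L, A *ᵥ x ∈ L) ∧
      Maximal (fun M : Submodule ℍᵐᵒᵖ (Fin n → ℍ) => ∀ x ∈ M, 0 ≤ (star x ⬝ᵥ G *ᵥ x).re) L := by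
  refine main (LinearMap.mk₂ ℝ (fun x y => (star x ⬝ᵥ G *ᵥ y).re) (by simp)
    (fun c x y => by rw [show star (c • x) = c • star x by ext1; simp]; simp)
    (by simp [mulVec_add]) (by simp [mulVec_smul])) (fun x y => ?_) (fun c x y => ?_)
    ⟨⟨fun x => A *ᵥ x, mulVec_add A⟩, fun c x => mulVec_smul A c x⟩ (fun x y => ?_) N hN
  · change (star x ⬝ᵥ G *ᵥ y).re = (star y ⬝ᵥ G *ᵥ x).re
    rw [← Quaternion.re_star, star_dotProduct, star_star, star_mulVec, hG, dotProduct_mulVec]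
  · change (star (op c • x) ⬝ᵥ G *ᵥ y).re = (star x ⬝ᵥ G *ᵥ (op (star c) • y)).re
    rw [mulVec_smul, dotProduct_smul, show star (op c • x) = star c • star x by ext1; simp,
      smul_dotProduct, smul_eq_mul, op_smul_eq_mul, Quaternion.re_mul, Quaternion.re_mul]
    ring
  · change (star (A *ᵥ x) ⬝ᵥ G *ᵥ y).re = -(star x ⬝ᵥ G *ᵥ A *ᵥ y).re
    rw [mulVec_mulVec, hA, star_mulVec, ← dotProduct_mulVec, mulVec_mulVec, neg_mulVec]
    simp

end Pool.Agent.H.MP_377342_al
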